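import Pool.Agent.Helper79.GT.St6

/-!
# Project GT (MP_c2d095_lc), module ENV: reading the word of an instance
-/

set_option autoImplicit false

namespace Pool.Agent.Helper7.GT

open Pool.Agent.Helper79.GT Pool.Agent.Helper79.GS Pool.Agent.Helper19.SK Pool.Agent.Helper73.DC Finset
open scoped Classical

private theorem lett_iff {α : Type} [Fintype α] (w : List α) (i : ℕ) (a : α) :
    lett w i = cd a + 1 ↔ w[i]? = some a := by
  unfold lett
  cases h : w[i]? with
  | none =>
    constructor
    · intro h1
      exact absurd h1 (Nat.succ_ne_zero _).symm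
    · intro h1
      exact absurd h1 (Option.some_ne_none a).symm
  | some b =>
    constructor
    · intro h1
      have h2 : cd b + 1 = cd a + 1 := h1
      have h3 : cd b = cd a := Nat.succ_injective h2
      have h4 := (Fintype.equivFin α).injective (Fin.ext h3)
      rw [h4]
    · intro h1
      rw [Option.some.inj h1]

/-- the next separator -/
private theorem next_sep (w : List (Fin 5)) (q q' : ℕ) (hq : q < q') (hl : q' < w.length)
    (h4 : w[q']? = some 4) (hn : ∀ i, q < i → i < q' → w[i]? ≠ some 4) :
    bmin w.length (fun i => q < i ∧ lett w i = cd (4 : Fin 5) + 1) = q' := by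
  refine (tL7 _ _).1 q' hl ⟨hq, (lett_iff _ _ _).2 h4⟩ ?_
  rintro i hi ⟨h0, h⟩
  exact hn i h0 hi ((lett_iff _ _ _).1 h)

section

variable {n : ℕ}

private theorem sword_length (x : Bool × Pos (Fin n × Fin n)) : (sword x).length = n * n + 1 := by
  unfold sword bword
  rw [List.length_append, List.length_ofFn]
  rfl

private theorem sword_get (x : Bool × Pos (Fin n × Fin n)) (p : ℕ) (hp : p < n * n) :
    (sword x)[p]? = some (ltr (x.2 (finProdFinEquiv.symm ⟨p, hp⟩))) := by
  unfold sword bword
  rw [List.getElem?_append_left (by rw [List.length_ofFn]; exact hp), List.getElem?_ofFn,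
    dif_pos hp]

private theorem sword_last (x : Bool × Pos (Fin n × Fin n)) :
    (sword x)[n * n]? = some (ltr (some x.1)) := by
  unfold sword bword
  rw [List.getElem?_append_right (by rw [List.length_ofFn]), List.length_ofFn, Nat.sub_self]
  rfl

private theorem flat_length (l : List (Bool × Pos (Fin n × Fin n))) :
    ((l.map sword).flatten).length = l.length * (n * n + 1) := by
  induction l with
  | nil => simp
  | cons Q l ih =>
    rw [List.map_cons, List.flatten_cons, List.length_append, sword_length, ih, List.length_cons]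
    ring

private theorem flat_get (l : List (Bool × Pos (Fin n × Fin n))) (j p : ℕ) (hj : j < l.length)
    (hp : p < n * n + 1) :
    ((l.map sword).flatten)[j * (n * n + 1) + p]? = (sword l[j])[p]? := by
  induction l generalizing j with
  | nil => exact absurd hj (Nat.not_lt_zero _)
  | cons Q l ih =>
    rw [List.map_cons, List.flatten_cons]
    cases j with
    | zero =>
      rw [Nat.zero_mul, Nat.zero_add, List.getElem?_append_left (by rw [sword_length]; exact hp)]
      rfl
    | succ j =>
      have e : (j + 1) * (n * n + 1) + p = (sword Q).length + (j * (n * n + 1) + p) := by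
        rw [sword_length]
        ring
      rw [e, List.getElem?_append_right (Nat.le_add_right _ _), Nat.add_sub_cancel_left]
      have hj' : j < l.length := by
        rw [List.length_cons] at hj
        omega
      exact ih j hj'

private theorem ltr_ne (x : Option Bool) : ltr x ≠ 4 := by
  rcases x with _ | b
  · exact (by decide : (0 : Fin 5) ≠ 4)
  · cases b
    · exact (by decide : (2 : Fin 5) ≠ 4)
    · exact (by decide : (1 : Fin 5) ≠ 4)

private theorem flat_ne (l : List (Bool × Pos (Fin n × Fin n))) (x : ℕ) :
    ((l.map sword).flatten)[x]? ≠ some 4 := by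
  intro h
  have h1 := List.mem_of_getElem? h
  rw [List.mem_flatten] at h1
  obtain ⟨b, hb, h2⟩ := h1
  rw [List.mem_map] at hb
  obtain ⟨Q, -, rfl⟩ := hb
  unfold sword bword at h2
  rw [List.mem_append] at h2
  rcases h2 with h2 | h2
  · rw [List.mem_ofFn] at h2
    obtain ⟨i, hi⟩ := h2
    exact ltr_ne _ hi
  · rw [List.mem_singleton] at h2
    exact ltr_ne _ h2.symm

/-- position after a block of letters 3 and a separator -/
private theorem rep_tail (k y : ℕ) (t : List (Fin 5)) :
    (List.replicate k (3 : Fin 5) ++ t)[k + y]? = t[y]? := by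
  rw [List.getElem?_append_right (by rw [List.length_replicate]; exact Nat.le_add_right _ _),
    List.length_replicate, Nat.add_sub_cancel_left]

private theorem rep_head (k i : ℕ) (t : List (Fin 5)) (hi : i < k) :
    (List.replicate k (3 : Fin 5) ++ t)[i]? = some 3 := by
  rw [List.getElem?_append_left (by rw [List.length_replicate]; exact hi), List.getElem?_replicate,
    if_pos hi]

variable (m kb kw : ℕ) (c : Bool) (P : Pos (Fin n × Fin n)) (H : List (Bool × Pos (Fin n × Fin n)))

private theorem g1 (i : ℕ) (hi : i < n) : (inst n m kb kw c P H)[i]? = some 3 := by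
  unfold inst
  exact rep_head _ _ _ hi

private theorem gT (y : ℕ) : (inst n m kb kw c P H)[n + y]? =
    (4 :: ((((c, P) :: H).map sword).flatten ++ 4 :: (List.replicate m 3 ++
    4 :: (List.replicate kb 3 ++ 4 :: List.replicate kw 3))) : List (Fin 5))[y]? := by
  unfold inst
  exact rep_tail _ _ _

private theorem g2 : (inst n m kb kw c P H)[n]? = some 4 := by
  have h := gT m kb kw c P H 0
  rw [Nat.add_zero] at h
  rw [h]
  rfl

private theorem g3 (x : ℕ) (hx : x < (H.length + 1) * (n * n + 1)) :
    (inst n m kb kw c P H)[n + 1 + x]? = ((((c, P) :: H).map sword).flatten)[x]? := by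
  have h := gT m kb kw c P H (x + 1)
  have e : n + (x + 1) = n + 1 + x := by omega
  rw [e, List.getElem?_cons_succ] at h
  rw [h, List.getElem?_append_left]
  rw [flat_length, List.length_cons]
  exact hx

private theorem gU (y : ℕ) : (inst n m kb kw c P H)[n + 1 + (H.length + 1) * (n * n + 1) + y]? =
    (4 :: (List.replicate m 3 ++
    4 :: (List.replicate kb 3 ++ 4 :: List.replicate kw 3)) : List (Fin 5))[y]? := by
  have h := gT m kb kw c P H ((H.length + 1) * (n * n + 1) + y + 1)
  have e : n + ((H.length + 1) * (n * n + 1) + y + 1) =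
    n + 1 + (H.length + 1) * (n * n + 1) + y := by omega
  have hl : ((((c, P) :: H).map sword).flatten).length = (H.length + 1) * (n * n + 1) := by
    rw [flat_length, List.length_cons]
  rw [e, List.getElem?_cons_succ] at h
  rw [h, List.getElem?_append_right (by rw [hl]; exact Nat.le_add_right _ _), hl,
    Nat.add_sub_cancel_left]

private theorem g4 : (inst n m kb kw c P H)[n + 1 + (H.length + 1) * (n * n + 1)]? = some 4 := by
  have h := gU m kb kw c P H 0
  rw [Nat.add_zero] at h
  rw [h]
  rfl

private theorem g5 (i : ℕ) (hi : i < m) :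
    (inst n m kb kw c P H)[n + 1 + (H.length + 1) * (n * n + 1) + 1 + i]? = some 3 := by
  have h := gU m kb kw c P H (i + 1)
  have e : n + 1 + (H.length + 1) * (n * n + 1) + (i + 1) =
    n + 1 + (H.length + 1) * (n * n + 1) + 1 + i := by omega
  rw [e, List.getElem?_cons_succ] at h
  rw [h]
  exact rep_head _ _ _ hi

private theorem gV (y : ℕ) :
    (inst n m kb kw c P H)[n + 1 + (H.length + 1) * (n * n + 1) + m + 1 + y]? =
    (4 :: (List.replicate kb 3 ++ 4 :: List.replicate kw 3) : List (Fin 5))[y]? := by
  have h := gU m kb kw c P H (m + y + 1)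
  have e : n + 1 + (H.length + 1) * (n * n + 1) + (m + y + 1) =
    n + 1 + (H.length + 1) * (n * n + 1) + m + 1 + y := by omega
  rw [e, List.getElem?_cons_succ] at h
  rw [h]
  exact rep_tail _ _ _

private theorem g6 :
    (inst n m kb kw c P H)[n + 1 + (H.length + 1) * (n * n + 1) + m + 1]? = some 4 := by
  have h := gV m kb kw c P H 0
  rw [Nat.add_zero] at h
  rw [h]
  rfl

private theorem g7 (i : ℕ) (hi : i < kb) :
    (inst n m kb kw c P H)[n + 1 + (H.length + 1) * (n * n + 1) + m + 1 + 1 + i]? = some 3 := by
  have h := gV m kb kw c P H (i + 1)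
  have e : n + 1 + (H.length + 1) * (n * n + 1) + m + 1 + (i + 1) =
    n + 1 + (H.length + 1) * (n * n + 1) + m + 1 + 1 + i := by omega
  rw [e, List.getElem?_cons_succ] at h
  rw [h]
  exact rep_head _ _ _ hi

private theorem g8 :
    (inst n m kb kw c P H)[n + 1 + (H.length + 1) * (n * n + 1) + m + 1 + kb + 1]? = some 4 := by
  have h := gV m kb kw c P H (kb + 1)
  have e : n + 1 + (H.length + 1) * (n * n + 1) + m + 1 + (kb + 1) =
    n + 1 + (H.length + 1) * (n * n + 1) + m + 1 + kb + 1 := by omega
  rw [e, List.getElem?_cons_succ] at h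
  rw [h]
  have h2 := rep_tail kb 0 (4 :: List.replicate kw 3)
  rw [Nat.add_zero] at h2
  rw [h2]
  rfl

private theorem g9 : (inst n m kb kw c P H).length =
    n + 1 + (H.length + 1) * (n * n + 1) + m + 1 + kb + 1 + kw + 1 := by
  unfold inst
  rw [List.length_append, List.length_replicate, List.length_cons, List.length_append, flat_length,
    List.length_cons, List.length_cons, List.length_append, List.length_replicate,
    List.length_cons, List.length_append, List.length_replicate, List.length_cons,
    List.length_replicate]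
  omega

private theorem nV_inst : nV (inst n m kb kw c P H) = n := by
  unfold nV
  refine (tL7 _ _).1 n ?_ ?_ ?_
  · rw [g9]
    omega
  · exact (lett_iff _ _ _).2 (g2 m kb kw c P H)
  · intro i hi h
    have h1 := (lett_iff _ _ _).1 h
    rw [g1 m kb kw c P H i hi] at h1
    exact (by decide : (3 : Fin 5) ≠ 4) (Option.some.inj h1)

private theorem q2_inst :
    q2 (inst n m kb kw c P H) = n + 1 + (H.length + 1) * (n * n + 1) := by
  unfold q2
  rw [nV_inst]
  refine next_sep _ _ _ (by omega) (by rw [g9]; omega) (g4 m kb kw c P H) ?_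
  intro i h0 hi h1
  obtain ⟨x, rfl⟩ : ∃ x, i = n + 1 + x := ⟨i - (n + 1), by omega⟩
  rw [g3 m kb kw c P H x (by omega)] at h1
  exact flat_ne _ _ h1

private theorem q3_inst :
    q3 (inst n m kb kw c P H) = n + 1 + (H.length + 1) * (n * n + 1) + m + 1 := by
  unfold q3
  rw [q2_inst]
  refine next_sep _ _ _ (by omega) (by rw [g9]; omega) (g6 m kb kw c P H) ?_
  intro i h0 hi h1
  obtain ⟨x, rfl⟩ : ∃ x, i = n + 1 + (H.length + 1) * (n * n + 1) + 1 + x :=
    ⟨i - (n + 1 + (H.length + 1) * (n * n + 1) + 1), by omega⟩
  rw [g5 m kb kw c P H x (by omega)] at h1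
  exact (by decide : (3 : Fin 5) ≠ 4) (Option.some.inj h1)

private theorem q4_inst :
    q4 (inst n m kb kw c P H) = n + 1 + (H.length + 1) * (n * n + 1) + m + 1 + kb + 1 := by
  unfold q4
  rw [q3_inst]
  refine next_sep _ _ _ (by omega) (by rw [g9]; omega) (g8 m kb kw c P H) ?_
  intro i h0 hi h1
  obtain ⟨x, rfl⟩ : ∃ x, i = n + 1 + (H.length + 1) * (n * n + 1) + m + 1 + 1 + x :=
    ⟨i - (n + 1 + (H.length + 1) * (n * n + 1) + m + 1 + 1), by omega⟩
  rw [g7 m kb kw c P H x (by omega)] at h1
  exact (by decide : (3 : Fin 5) ≠ 4) (Option.some.inj h1)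

private theorem blk (j p : ℕ) (hj : j < ((c, P) :: H).length) (hp : p < n * n + 1) :
    (inst n m kb kw c P H)[n + 1 + j * (n * n + 1) + p]? = (sword (((c, P) :: H)[j]))[p]? := by
  have hj' : j < H.length + 1 := hj
  have hx : j * (n * n + 1) + p < (H.length + 1) * (n * n + 1) := by
    calc j * (n * n + 1) + p < j * (n * n + 1) + (n * n + 1) := by omega
      _ = (j + 1) * (n * n + 1) := by ring
      _ ≤ (H.length + 1) * (n * n + 1) := Nat.mul_le_mul_right _ (by omega)
  have e : n + 1 + j * (n * n + 1) + p = n + 1 + (j * (n * n + 1) + p) := by omega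
  rw [e, g3 m kb kw c P H _ hx, flat_get _ j p hj hp]

private theorem cnt_inst (j p : ℕ) (hj : j < ((c, P) :: H).length) (hp : p < n * n) :
    cntV (inst n m kb kw c P H) j p =
      dgt ((((c, P) :: H)[j]).2 (finProdFinEquiv.symm ⟨p, hp⟩)) := by
  have h1 := blk m kb kw c P H j p hj (by omega)
  rw [sword_get _ p hp] at h1
  have k1 := lett_iff (inst n m kb kw c P H) (n + 1 + j * (n * n + 1) + p) (1 : Fin 5)
  have k2 := lett_iff (inst n m kb kw c P H) (n + 1 + j * (n * n + 1) + p) (2 : Fin 5)
  rw [h1] at k1 k2
  unfold cntV bpV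
  rw [nV_inst]
  generalize (((c, P) :: H)[j]).2 (finProdFinEquiv.symm ⟨p, hp⟩) = x at k1 k2 ⊢
  rcases x with _ | b
  · have n1 : ¬ lett (inst n m kb kw c P H) (n + 1 + j * (n * n + 1) + p) = cd (1 : Fin 5) + 1 :=
      fun h => absurd (Option.some.inj (k1.1 h)) (by decide)
    have n2 : ¬ lett (inst n m kb kw c P H) (n + 1 + j * (n * n + 1) + p) = cd (2 : Fin 5) + 1 :=
      fun h => absurd (Option.some.inj (k2.1 h)) (by decide)
    rw [if_neg n1, if_neg n2]
    rfl
  · cases b
    · have n1 : ¬ lett (inst n m kb kw c P H) (n + 1 + j * (n * n + 1) + p) = cd (1 : Fin 5) + 1 :=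
        fun h => absurd (Option.some.inj (k1.1 h)) (by decide)
      rw [if_neg n1, if_pos (k2.2 rfl)]
      rfl
    · rw [if_pos (k1.2 rfl)]
      rfl

private theorem sd_inst (j : ℕ) (hj : j < ((c, P) :: H).length) :
    sdV (inst n m kb kw c P H) j = bn (((c, P) :: H)[j]).1 := by
  have h1 := blk m kb kw c P H j (n * n) hj (by omega)
  rw [sword_last] at h1
  have k1 := lett_iff (inst n m kb kw c P H) (n + 1 + j * (n * n + 1) + n * n) (1 : Fin 5)
  rw [h1] at k1
  unfold sdV bpV bn
  rw [nV_inst]
  generalize (((c, P) :: H)[j]).1 = x at k1 ⊢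
  cases x
  · have n1 : ¬ lett (inst n m kb kw c P H) (n + 1 + j * (n * n + 1) + n * n) =
        cd (1 : Fin 5) + 1 := fun h => absurd (Option.some.inj (k1.1 h)) (by decide)
    rw [if_neg n1]
    rfl
  · rw [if_pos (k1.2 rfl)]
    rfl

end

private theorem bn_inj (s t : Bool) (h : bn s = bn t) : s = t := by
  cases s <;> cases t <;> first | rfl | exact absurd h (by decide)

theorem hENV (hCOD : StCOD) : Pool.Agent.Helper79.GT.StENV := by
  intro n m kb kw c P H hn
  refine ⟨nV_inst m kb kw c P H, ?_, ?_, ?_, ?_, ?_⟩
  · unfold mV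
    rw [q3_inst, q2_inst]
    omega
  · unfold kbV
    rw [q4_inst, q3_inst]
    omega
  · unfold kwV
    rw [q4_inst, g9]
    omega
  · exact sd_inst m kb kw c P H 0 (by simp)
  · intro N hN
    have hPP : PP N (inst n m kb kw c P H) = 3 ^ (n * n) := by
      unfold PP pw
      rw [nV_inst]
      exact min_eq_left (by omega)
    constructor
    · unfold b0V
      rw [hPP]
      congr 1
      unfold codeB
      rw [nV_inst, Finset.sum_range]
      refine Finset.sum_congr rfl fun i _ => ?_
      have e1 : pw N 3 i.val = 3 ^ i.val := by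
        unfold pw
        refine min_eq_left ?_
        have : 3 ^ i.val ≤ 3 ^ (n * n) := Nat.pow_le_pow_right (by norm_num) i.isLt.le
        omega
      have e2 := cnt_inst m kb kw c P H 0 i.val (by simp) i.isLt
      rw [e1, e2]
      congr 1
    · intro sk s Q i hi
      have hQ := ((hCOD n).1 Q).1
      have hmod : (codeB Q + 3 ^ (n * n) * i) % 3 ^ (n * n) = codeB Q := by
        rw [Nat.add_mul_mod_self_left, Nat.mod_eq_of_lt hQ]
      unfold HV TT
      rw [hPP, nV_inst, q2_inst, hmod]
      constructor
      · rintro ⟨-, j, -, h1, h2, hs, h3⟩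
        have hjh : j < ((c, P) :: H).length := by
          rw [List.length_cons]
          by_contra hcon
          have h4 : H.length + 1 + 1 ≤ j + 1 := by omega
          have h5 := Nat.mul_le_mul_right (n * n + 1) h4
          have h6 : (H.length + 1 + 1) * (n * n + 1) =
            (H.length + 1) * (n * n + 1) + (n * n + 1) := by ring
          omega
        have h7 : codeB Q = codeB ((((c, P) :: H)[j]).2) := by
          refine (hCOD n).2.2.2 _ _ hQ fun i => ?_
          rw [h3 i.val i.isLt]
          exact cnt_inst m kb kw c P H j i.val hjh i.isLt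
        have h8 := (hCOD n).2.1 _ _ h7
        have h9 := sd_inst m kb kw c P H j hjh
        obtain ⟨j', rfl⟩ : ∃ j', j = j' + 1 := ⟨j - 1, by omega⟩
        have hj' : j' < H.length := by
          rw [List.length_cons] at hjh
          omega
        have e : (((c, P) :: H)[j' + 1]) = H[j'] := rfl
        rw [e] at h8 h9
        have hmem : (H[j'].1, Q) ∈ H := by
          rw [h8]
          exact List.getElem_mem hj'
        cases sk
        · by_cases hss : H[j'].1 = s
          · left
            rw [hss] at hmem
            exact hmem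
          · right
            have : H[j'].1 = !s := by
              generalize H[j'].1 = x at hss
              cases x <;> cases s <;> simp_all
            rw [this] at hmem
            exact ⟨rfl, hmem⟩
        · left
          have h10 := (h9.symm.trans (hs rfl))
          rw [bn_inj _ _ h10] at hmem
          exact hmem
      · intro hQH
        have h0 : ∃ s', (s', Q) ∈ H ∧ (sk = true → s' = s) := by
          rcases hQH with h | ⟨h, h'⟩
          · exact ⟨s, h, fun _ => rfl⟩
          · exact ⟨!s, h', fun h2 => absurd (h.symm.trans h2) (by decide)⟩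
        obtain ⟨s', hs', hss⟩ := h0
        obtain ⟨l, hl, hlQ⟩ := List.mem_iff_getElem.1 hs'
        refine ⟨?_, l + 1, ?_, by omega, ?_, ?_, ?_⟩
        · calc codeB Q + 3 ^ (n * n) * i < 3 ^ (n * n) + 3 ^ (n * n) * i := by omega
            _ = 3 ^ (n * n) * (i + 1) := by ring
            _ ≤ 3 ^ (n * n) * MM (inst n m kb kw c P H) := Nat.mul_le_mul_left _ hi
        · rw [g9]
          have : H.length + 1 ≤ (H.length + 1) * (n * n + 1) :=
            Nat.le_mul_of_pos_right _ (Nat.succ_pos _)
          omega
        · have : (l + 1 + 1) * (n * n + 1) ≤ (H.length + 1) * (n * n + 1) :=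
            Nat.mul_le_mul_right _ (by omega)
          omega
        · intro hsk
          rw [sd_inst m kb kw c P H (l + 1) (by rw [List.length_cons]; omega)]
          have e : (((c, P) :: H)[l + 1]'(by rw [List.length_cons]; omega)) = H[l] := rfl
          rw [e, hlQ, ← hss hsk]
        · intro p hp
          rw [cnt_inst m kb kw c P H (l + 1) p (by rw [List.length_cons]; omega) hp]
          have e : (((c, P) :: H)[l + 1]'(by rw [List.length_cons]; omega)) = H[l] := rfl
          rw [e, hlQ]
          exact ((hCOD n).1 Q).2 ⟨p, hp⟩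

end Pool.Agent.Helper7.GT
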